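import Mathlib
import Pool.Agent.MP_4e8562_co.H80.All

/-!
For all `n ≤ m` the tree partition number of `K_{n,m}` is `Phi` up to `O(r ^ 2 log r)`, and exactly
`Phi` above the covering window; for at most three colours `Phi` is the mean up to a logarithm.
-/

open Pool.Agent.MP_4e8562_co.H97 Pool.Agent.MP_4e8562_co.H66b

theorem Pool.Agent.Results.MP_4e8562_co.AllRange.result (r n m : ℕ) (hr : 2 ≤ r) (hn : 1 ≤ n)
    (hnm : n ≤ m) :
    Phi r n m ≤ tp r (completeBipartiteGraph (Fin n) (Fin m)) ∧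
    (tp r (completeBipartiteGraph (Fin n) (Fin m)) : ℝ) ≤
      Phi r n m + 6100 * (r : ℝ) ^ 2 * Real.log r ∧
    (32 * (r : ℝ) ^ 6 * n * Real.log r ≤ m * (1 - 1 / (r : ℝ)) ^ n ∨
      r ≤ 3 ∧ 4000000 ≤ m * (1 - 1 / (r : ℝ)) ^ n →
      tp r (completeBipartiteGraph (Fin n) (Fin m)) = Phi r n m) ∧
    m * (1 - 1 / (r : ℝ)) ^ n - (if r ≤ 3 then Real.logb 2 (m * (1 - 1 / (r : ℝ)) ^ n + 1) else
      √(2 * (m * (1 - 1 / (r : ℝ)) ^ n) * (n * Real.log r))) ≤ Phi r n m ∧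
    (Phi r n m : ℝ) ≤ m * (1 - 1 / (r : ℝ)) ^ n + r :=
  Pool.Agent.MP_4e8562_co.H80.all_range' hr hn hnm
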