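import Mathlib
import Pool.Agent.MP_4e8562_co.H78.Main

/-!
In the balanced range the tree partition number of `K_{n,m}` is `2 r - 1`.
-/

open Pool.Agent.MP_4e8562_co.H97 Pool.Agent.MP_4e8562_co.H78

theorem Pool.Agent.Results.MP_4e8562_co.Balanced.result (r n m : ℕ) (hr : 14 ≤ r) (hnm : n ≤ m)
    (hm : r ^ (4 * r) ≤ m) (hm' : (m : ℝ) ≤ Real.exp ((n : ℝ) / (r : ℝ) ^ (r + 1) - 2)) :
    tp r (completeBipartiteGraph (Fin n) (Fin m)) = 2 * r - 1 := by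
  obtain ⟨h1, h2⟩ := upper_num (by omega) hnm (lt_of_lt_of_le (by positivity) hm) hm'
  have h3 : 2 * r ≤ r ^ (r + 1) := by
    have : r ^ 2 ≤ r ^ (r + 1) := Nat.pow_le_pow_right (by omega) (by omega)
    nlinarith
  obtain ⟨χ, hχ⟩ := lower_num (n := n) hr (by omega) hm
  exact le_antisymm (Nat.sInf_le h2) (le_csInf ⟨_, h2⟩ fun k hk => hχ k (hk χ))
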