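import Mathlib
import Pool.Agent.MP_4e8562_co.H66.Main

/-!
The order of magnitude of the tree partition number of `K_{n,m}`.
-/

open Pool.Agent.MP_4e8562_co.H97 Pool.Agent.MP_4e8562_co.H66

theorem Pool.Agent.Results.MP_4e8562_co.Order.result :
    ∃ c C : ℝ, 0 < c ∧ 0 < C ∧ ∀ r n m : ℕ, 1 ≤ r → n ≤ m →
      (m : ℝ) ≤ (n : ℝ) * Real.exp (min ((n : ℝ) / (r : ℝ)) (r : ℝ)) →
      c * (((min n r : ℕ) : ℝ) * Real.log (Real.exp 1 + (m : ℝ) / (r : ℝ)) /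
          Real.log (Real.exp 1 + (n : ℝ) / (r : ℝ) ^ 2)) ≤
        (tp r (completeBipartiteGraph (Fin n) (Fin m)) : ℝ) ∧
      (tp r (completeBipartiteGraph (Fin n) (Fin m)) : ℝ) ≤
        C * (((min n r : ℕ) : ℝ) * Real.log (Real.exp 1 + (m : ℝ) / (r : ℝ)) /
          Real.log (Real.exp 1 + (n : ℝ) / (r : ℝ) ^ 2)) :=
  ⟨1 / 20000, 300, by norm_num, by norm_num, fun _ _ _ hr hnm hm => order hr hnm hm⟩
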