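import Mathlib
import Pool.Agent.MP_4e8562_co.H66.Sep

/-!
The tree partition number of `K_{n,m}` exceeds any fixed multiple of the tree cover number.
-/

open Pool.Agent.MP_4e8562_co.H97 Pool.Agent.MP_4e8562_co.H66

theorem Pool.Agent.Results.MP_4e8562_co.Separation.result (t : ℕ) :
    ∃ C : ℕ, 0 < C ∧ ∀ r n m : ℕ, 2 ≤ r → 1 ≤ n → n ≤ m →
      (C ≤ r ∧ (n : ℝ) ≤ Real.exp ((r : ℝ) / (C : ℝ)) ∧
          (r : ℝ) * (Real.exp 1 + (n : ℝ) / (r : ℝ) ^ 2) ^ C ≤ (m : ℝ) ∨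
        C * r ^ (n + 1) ≤ m) →
      t * tc r (completeBipartiteGraph (Fin n) (Fin m)) <
        tp r (completeBipartiteGraph (Fin n) (Fin m)) :=
  separation t
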